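import Pool.Agent.H16.Lib.S8.TH499.TF.Local

set_option autoImplicit false

/-! # Configurations that can always be completed -/

namespace Pool.Agent.TH499.TF

open Finset

variable {V E : Type} [Fintype V] [DecidableEq V] [Fintype E] [DecidableEq E]
variable {C : (E → V) → (E → V) → Prop} {src dst : E → V}

theorem K_cancel (a b : K) : a + (a + b) = b := by rw [← add_assoc, K_add_self, zero_add]

/-- the vertex `l i` has no further neighbours -/
def Inn (src dst : E → V) {N m : ℕ} (p q : Fin m → Fin N) (l : Fin N → V) (i : Fin N) : Prop :=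
  ∀ y, Ad src dst (l i) y → ∃ k, (p k = i ∧ y = l (q k)) ∨ (q k = i ∧ y = l (p k))

theorem MC.solve (hC : Closed C) (h : MC C src dst) {N m : ℕ} (p q : Fin m → Fin N)
    {l : Fin N → V} (hl : Function.Injective l) {ε : Fin m → E} (hε : Function.Injective ε)
    (hj : ∀ k, Joins src dst (ε k) (l (p k)) (l (q k)))
    {f : E → K} (hf : ∀ e, (∀ k, e ≠ ε k) → f e ≠ 0)
    (hd : ∀ x, (∀ i, x ≠ l i) → dv src dst f x = 0)
    {t : Fin m → K} (ht : ∀ k, t k ≠ 0) (i0 : Fin N)
    (hs : ∀ i, i ≠ i0 → (Inn src dst p q l i ∧ dv p q t i = 0) ∨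
      dv p q t i = outd src dst ε f (l i)) : False := by
  have h1 : ∀ i, i ≠ i0 → outd src dst ε f (l i) = dv p q t i := by
    intro i hi
    rcases hs i hi with ⟨h2, h3⟩ | h2
    · rw [h3]
      apply h.inner hC
      intro y hy
      obtain ⟨k, hk⟩ := h2 y hy
      refine ⟨k, ?_⟩
      rcases hk with ⟨h4, h5⟩ | ⟨h4, h5⟩
      · rw [← h4, h5]; exact hj k
      · rw [← h4, h5]; exact (hj k).symm
    · exact h2.symm
  apply h.nz
  refine gl p q hl hε hj hf hd ht fun i => ?_
  by_cases hi : i = i0
  · subst hi
    have h2 := sum_outd p q hl hε hj hd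
    have h3 := sum_dv_univ p q t
    rw [← add_sum_erase _ _ (mem_univ i)] at h2 h3
    have h4 : ∑ x ∈ univ.erase i, outd src dst ε f (l x) = ∑ x ∈ univ.erase i, dv p q t x :=
      sum_congr rfl fun j hj => h1 j (mem_erase.mp hj).1
    rw [K_eq_of_add h2, K_eq_of_add h3, h4]
  · exact h1 i hi

/-- every label has an earlier neighbour -/
def Lin {N m : ℕ} (p q : Fin m → Fin N) : Prop :=
  ∀ i : Fin N, 0 < i.1 → ∃ k, (p k = i ∧ q k < i) ∨ (q k = i ∧ p k < i)

instance {N m : ℕ} (p q : Fin m → Fin N) : Decidable (Lin p q) := by unfold Lin; infer_instance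

theorem grow_labels {N m : ℕ} {p q : Fin m → Fin N} (hlin : Lin p q) (hN : 0 < N)
    {l : Fin N → V} (hl : Function.Injective l)
    (ha : ∀ k, Ad src dst (l (p k)) (l (q k))) : Grow src dst (univ.image l) := by
  have key : ∀ n, 1 ≤ n → n ≤ N →
      Grow src dst ((univ.filter (fun i : Fin N => i.1 < n)).image l) := by
    intro n
    induction n with
    | zero => intro h; omega
    | succ n ih =>
      intro _ hn
      by_cases h0 : n = 0
      · subst h0
        have : (univ.filter (fun i : Fin N => i.1 < 0 + 1)).image l = {l ⟨0, hN⟩} := by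
          ext z
          simp only [mem_image, mem_filter, mem_univ, true_and, mem_singleton]
          constructor
          · rintro ⟨i, hi, rfl⟩
            congr 1
            apply Fin.ext
            simp only
            omega
          · rintro rfl
            exact ⟨⟨0, hN⟩, by simp, rfl⟩
        rw [this]
        exact Grow.one _
      · have hg := ih (by omega) (by omega)
        have hnN : n < N := by omega
        have ht : (univ.filter (fun i : Fin N => i.1 < n + 1)).image l
            = insert (l ⟨n, hnN⟩) ((univ.filter (fun i : Fin N => i.1 < n)).image l) := by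
          ext z
          simp only [mem_image, mem_filter, mem_univ, true_and, mem_insert]
          constructor
          · rintro ⟨i, hi, rfl⟩
            by_cases h1 : i.1 < n
            · right; exact ⟨i, h1, rfl⟩
            · left
              congr 1
              apply Fin.ext
              simp only
              omega
          · rintro (rfl | ⟨i, hi, rfl⟩)
            · exact ⟨⟨n, hnN⟩, by simp, rfl⟩
            · exact ⟨i, by omega, rfl⟩
        rw [ht]
        obtain ⟨k, hk⟩ := hlin ⟨n, hnN⟩ (by simp only; omega)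
        have hnm : l ⟨n, hnN⟩ ∉ (univ.filter (fun i : Fin N => i.1 < n)).image l := by
          intro hm
          rw [mem_image] at hm
          obtain ⟨i, hi, hi2⟩ := hm
          rw [mem_filter] at hi
          have := hl hi2
          rw [this] at hi
          exact absurd hi.2 (lt_irrefl _)
        rcases hk with ⟨h1, h2⟩ | ⟨h1, h2⟩
        · obtain ⟨_, e, he⟩ := ha k
          rw [h1] at he
          exact Grow.add _ _ _ e hg hnm (mem_image_of_mem l (by
            rw [mem_filter]; exact ⟨mem_univ _, h2⟩)) he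
        · obtain ⟨_, e, he⟩ := ha k
          rw [h1] at he
          exact Grow.add _ _ _ e hg hnm (mem_image_of_mem l (by
            rw [mem_filter]; exact ⟨mem_univ _, h2⟩)) he.symm
  have := key N hN le_rfl
  have h2 : univ.filter (fun i : Fin N => i.1 < N) = univ := by
    ext i; simp
  rwa [h2] at this

/-- a configuration in which all demands can be met -/
theorem MC.config (hC : Closed C) (h : MC C src dst) {N m : ℕ} (p q : Fin m → Fin N)
    (hpq : ∀ k k', ((p k = p k' ∧ q k = q k') ∨ (p k = q k' ∧ q k = p k')) → k = k')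
    (hlin : Lin p q) (hN : 0 < N) (hm : 0 < m)
    {l : Fin N → V} (hl : Function.Injective l)
    (ha : ∀ k, Ad src dst (l (p k)) (l (q k))) (i0 : Fin N)
    (hs : ∀ d : Fin N → K, ∃ t : Fin m → K, (∀ k, t k ≠ 0) ∧ ∀ i, i ≠ i0 →
      (Inn src dst p q l i ∧ dv p q t i = 0) ∨ dv p q t i = d i) : False := by
  obtain ⟨ε, hε, hj⟩ := gadget p q hpq hl ha
  have hG := grow_labels hlin hN hl ha
  have h0 := hj ⟨0, hm⟩
  have hne : src (ε ⟨0, hm⟩) ≠ dst (ε ⟨0, hm⟩) := h0.ne_loop (ha _).1
  have hmem : src (ε ⟨0, hm⟩) ∈ univ.image l ∧ dst (ε ⟨0, hm⟩) ∈ univ.image l := by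
    rcases h0 with ⟨h1, h2⟩ | ⟨h1, h2⟩
    · rw [h1, h2]; exact ⟨mem_image_of_mem _ (mem_univ _), mem_image_of_mem _ (mem_univ _)⟩
    · rw [h1, h2]; exact ⟨mem_image_of_mem _ (mem_univ _), mem_image_of_mem _ (mem_univ _)⟩
  obtain ⟨f, hf, hd⟩ := h.con hC hG hne hmem.1 hmem.2
  obtain ⟨t, ht, hts⟩ := hs (fun i => outd src dst ε f (l i))
  exact h.solve hC p q hl hε hj (fun e _ => hf e) (fun x hx => hd x (by
    intro hm
    rw [mem_image] at hm
    obtain ⟨i, _, hi⟩ := hm
    exact hx i hi.symm)) ht i0 hts

end Pool.Agent.TH499.TF
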