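import Pool.Agent.H16.Lib.S8.TH499.TF.Conf3

set_option autoImplicit false

/-! # Two doubles with the same roots: the roots have degree three -/

namespace Pool.Agent.TH499.TF

open Finset

variable {V E : Type} [Fintype V] [DecidableEq V] [Fintype E] [DecidableEq E]
variable {C : (E → V) → (E → V) → Prop} {src dst : E → V}

theorem N3.swap {A : V → V → Prop} {x a b c : V} (h : N3 A x a b c) : N3 A x a c b := by
  intro z; rw [h z]; tauto

omit [Fintype V] in
theorem outd_lab {src dst : E → V} {N m : ℕ} (p q : Fin m → Fin N) {l : Fin N → V}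
    (hl : Function.Injective l) {ε : Fin m → E} (hε : Function.Injective ε)
    (hj : ∀ k, Joins src dst (ε k) (l (p k)) (l (q k))) (f : E → K) (i : Fin N) :
    outd src dst ε f (l i) = dv src dst f (l i) + dv p q (fun k => f (ε k)) i := by
  rw [dv_split src dst hε]
  have h2 : ∑ k, jn (src (ε k)) (dst (ε k)) (f (ε k)) (l i)
      = dv p q (fun k => f (ε k)) i := by
    unfold dv
    refine sum_congr rfl fun k _ => ?_
    rw [(hj k).jn]
    unfold jn
    simp only [hl.eq_iff]
  rw [h2, add_assoc, K_add_self, add_zero]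

/-- labels `x y a b c d x' y'` -/
abbrev hp : Fin 10 → Fin 8 := ![0, 0, 0, 1, 1, 6, 6, 6, 7, 7]
abbrev hq : Fin 10 → Fin 8 := ![1, 2, 3, 4, 5, 7, 2, 4, 3, 5]

theorem MC.h23solve (hC : Closed C) (h : MC C src dst) {x y a b c d x' y' : V}
    (hx : Dbl (Ad src dst) x y a b c d) (hy : Dbl (Ad src dst) x' y' a c b d)
    (hinj : Function.Injective (![x, y, a, b, c, d, x', y'] : Fin 8 → V))
    {ε : Fin 10 → E} (hε : Function.Injective ε)
    (hj : ∀ k, Joins src dst (ε k) ((![x, y, a, b, c, d, x', y'] : Fin 8 → V) (hp k))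
      ((![x, y, a, b, c, d, x', y'] : Fin 8 → V) (hq k)))
    {f : E → K} (hf : ∀ e, (∀ k, e ≠ ε k) → f e ≠ 0)
    (hd : ∀ z, (∀ i, z ≠ (![x, y, a, b, c, d, x', y'] : Fin 8 → V) i) → dv src dst f z = 0)
    (hcase : outd src dst ε f a = 0 ∨ outd src dst ε f b = outd src dst ε f c) : False := by
  obtain ⟨α, β, γ, h1, h2, h3, h4, h5, h6, h7, h8, h9, h10⟩ :=
    solH (outd src dst ε f a) (outd src dst ε f b) (outd src dst ε f c) hcase
  refine h.solve hC hp hq hinj hε hj hf hd (t := ![α + β, α, β, γ, α + β + γ,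
    (outd src dst ε f a + α) + (outd src dst ε f c + γ), outd src dst ε f a + α,
    outd src dst ε f c + γ, outd src dst ε f b + β,
    (outd src dst ε f a + α) + (outd src dst ε f c + γ) + (outd src dst ε f b + β)]) ?_ 5 ?_
  · intro k; fin_cases k <;> assumption
  · intro t ht; fin_cases t
    · left
      refine ⟨?_, ?_⟩
      · intro w hw
        rcases (hx.1 w).mp hw with h | h | h
        · exact ⟨0, Or.inl ⟨rfl, h⟩⟩
        · exact ⟨1, Or.inl ⟨rfl, h⟩⟩
        · exact ⟨2, Or.inl ⟨rfl, h⟩⟩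
      · simp [dv, jn, Fin.sum_univ_succ]
        try simp only [add_assoc, add_comm, add_left_comm, K_add_self, K_cancel, add_zero, zero_add]
    · left
      refine ⟨?_, ?_⟩
      · intro w hw
        rcases (hx.2 w).mp hw with h | h | h
        · exact ⟨0, Or.inr ⟨rfl, h⟩⟩
        · exact ⟨3, Or.inl ⟨rfl, h⟩⟩
        · exact ⟨4, Or.inl ⟨rfl, h⟩⟩
      · simp [dv, jn, Fin.sum_univ_succ]
        try simp only [add_assoc, add_comm, add_left_comm, K_add_self, K_cancel, add_zero, zero_add]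
    · right
      change _ = outd src dst ε f a
      simp [dv, jn, Fin.sum_univ_succ]
      try simp only [add_assoc, add_comm, add_left_comm, K_add_self, K_cancel, add_zero, zero_add]
    · right
      change _ = outd src dst ε f b
      simp [dv, jn, Fin.sum_univ_succ]
      try simp only [add_assoc, add_comm, add_left_comm, K_add_self, K_cancel, add_zero, zero_add]
    · right
      change _ = outd src dst ε f c
      simp [dv, jn, Fin.sum_univ_succ]
      try simp only [add_assoc, add_comm, add_left_comm, K_add_self, K_cancel, add_zero, zero_add]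
    · exact absurd rfl ht
    · left
      refine ⟨?_, ?_⟩
      · intro w hw
        rcases (hy.1 w).mp hw with h | h | h
        · exact ⟨5, Or.inl ⟨rfl, h⟩⟩
        · exact ⟨6, Or.inl ⟨rfl, h⟩⟩
        · exact ⟨7, Or.inl ⟨rfl, h⟩⟩
      · simp [dv, jn, Fin.sum_univ_succ]
        try simp only [add_assoc, add_comm, add_left_comm, K_add_self, K_cancel, add_zero, zero_add]
    · left
      refine ⟨?_, ?_⟩
      · intro w hw
        rcases (hy.2 w).mp hw with h | h | h
        · exact ⟨5, Or.inr ⟨rfl, h⟩⟩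
        · exact ⟨8, Or.inl ⟨rfl, h⟩⟩
        · exact ⟨9, Or.inl ⟨rfl, h⟩⟩
      · simp [dv, jn, Fin.sum_univ_succ]
        try simp only [add_assoc, add_comm, add_left_comm, K_add_self, K_cancel, add_zero, zero_add]

theorem h23adj {A : V → V → Prop} (hs : ∀ x y, A x y → A y x) {x y a b c d x' y' : V}
    (hx : Dbl A x y a b c d) (hy : Dbl A x' y' a c b d) :
    ∀ k, A ((![x, y, a, b, c, d, x', y'] : Fin 8 → V) (hp k))
      ((![x, y, a, b, c, d, x', y'] : Fin 8 → V) (hq k)) := by
  intro k; fin_cases k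
  · exact (hx.1 _).mpr (Or.inl rfl)
  · exact (hx.1 _).mpr (Or.inr (Or.inl rfl))
  · exact (hx.1 _).mpr (Or.inr (Or.inr rfl))
  · exact (hx.2 _).mpr (Or.inr (Or.inl rfl))
  · exact (hx.2 _).mpr (Or.inr (Or.inr rfl))
  · exact (hy.1 _).mpr (Or.inl rfl)
  · exact (hy.1 _).mpr (Or.inr (Or.inl rfl))
  · exact (hy.1 _).mpr (Or.inr (Or.inr rfl))
  · exact (hy.2 _).mpr (Or.inr (Or.inl rfl))
  · exact (hy.2 _).mpr (Or.inr (Or.inr rfl))

omit [Fintype V] [DecidableEq E] in
theorem mem_dlt_one {e : E} {z : V} : e ∈ dlt src dst {z} ↔ ∃ w, w ≠ z ∧ Joins src dst e z w := by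
  rw [mem_dlt]
  simp only [mem_singleton]
  constructor
  · intro h
    by_cases h1 : src e = z
    · exact ⟨dst e, fun h2 => h ⟨fun _ => h2, fun _ => h1⟩, Or.inl ⟨h1, rfl⟩⟩
    · have h2 : dst e = z := by
        by_contra h2
        exact h ⟨fun h => absurd h h1, fun h => absurd h h2⟩
      exact ⟨src e, h1, Or.inr ⟨rfl, h2⟩⟩
  · rintro ⟨w, hw, ⟨h1, h2⟩ | ⟨h1, h2⟩⟩ h3
    · exact hw (h2.symm.trans (h3.mp h1))
    · exact hw (h1.symm.trans (h3.mpr h2))

/-- a vertex with three edges -/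
theorem MC.third (hC : Closed C) (h : MC C src dst) {a x x' : V}
    (h3 : (dlt src dst {a}).card = 3) (hax : Ad src dst a x) (hax' : Ad src dst a x')
    (hne : x ≠ x') : ∃ s, s ≠ x ∧ s ≠ x' ∧ N3 (Ad src dst) a x x' s := by
  obtain ⟨n1, e1, he1⟩ := hax
  obtain ⟨n2, e2, he2⟩ := hax'
  have m1 : e1 ∈ dlt src dst {a} := mem_dlt_one.mpr ⟨x, n1.symm, he1⟩
  have m2 : e2 ∈ dlt src dst {a} := mem_dlt_one.mpr ⟨x', n2.symm, he2⟩
  have ne : e1 ≠ e2 := by
    rintro rfl
    rcases he1.ends he2 with ⟨_, h⟩ | ⟨h, _⟩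
    · exact hne h
    · exact n2 h
  have hc : ((dlt src dst {a}).erase e1).card = 2 := by rw [card_erase_of_mem m1, h3]
  have hc2 : (((dlt src dst {a}).erase e1).erase e2).card = 1 := by
    rw [card_erase_of_mem (mem_erase.mpr ⟨ne.symm, m2⟩), hc]
  obtain ⟨e3, he3⟩ := card_eq_one.mp hc2
  have m3 : e3 ∈ ((dlt src dst {a}).erase e1).erase e2 := by rw [he3]; simp
  rw [mem_erase, mem_erase] at m3
  obtain ⟨ne32, ne31, m3⟩ := m3
  obtain ⟨s, hs, hj⟩ := mem_dlt_one.mp m3
  refine ⟨s, ?_, ?_, ?_⟩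
  · rintro rfl
    exact ne31 (h.par hC n1 hj he1)
  · rintro rfl
    exact ne32 (h.par hC n2 hj he2)
  · intro z
    constructor
    · rintro ⟨nz, e, he⟩
      have me : e ∈ dlt src dst {a} := mem_dlt_one.mpr ⟨z, nz.symm, he⟩
      by_cases q1 : e = e1
      · subst q1
        rcases he.ends he1 with ⟨_, h⟩ | ⟨h, _⟩
        · exact Or.inl h
        · exact absurd h n1
      by_cases q2 : e = e2
      · subst q2
        rcases he.ends he2 with ⟨_, h⟩ | ⟨h, _⟩
        · exact Or.inr (Or.inl h)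
        · exact absurd h n2
      have q3 : e ∈ ((dlt src dst {a}).erase e1).erase e2 :=
        mem_erase.mpr ⟨q2, mem_erase.mpr ⟨q1, me⟩⟩
      rw [he3, mem_singleton] at q3
      subst q3
      rcases he.ends hj with ⟨_, h⟩ | ⟨h, _⟩
      · exact Or.inr (Or.inr h)
      · exact absurd h.symm hs
    · rintro (rfl | rfl | rfl)
      · exact ⟨n1, e1, he1⟩
      · exact ⟨n2, e2, he2⟩
      · exact ⟨hs.symm, e3, hj⟩

/-- the root `a` has three edges -/
theorem MC.h23deg (hC : Closed C) (h : MC C src dst) {x y a b c d x' y' : V}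
    (hnd : [x, y, a, b, c, d, x', y'].Nodup)
    (hx : Dbl (Ad src dst) x y a b c d) (hy : Dbl (Ad src dst) x' y' a c b d) :
    (dlt src dst {a}).card = 3 := by
  by_contra h3
  have hinj : Function.Injective (![x, y, a, b, c, d, x', y'] : Fin 8 → V) := by
    rw [← List.nodup_ofFn]; exact hnd
  obtain ⟨ε, hε, hj⟩ := gadget hp hq (by decide) hinj (h23adj (fun _ _ h => h.symm) hx hy)
  have hax : Joins src dst (ε 1) x a := hj 1
  have hax' : Joins src dst (ε 6) x' a := hj 6
  have hxa : x ≠ a := ((hx.1 a).mpr (Or.inr (Or.inl rfl))).1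
  have hxa' : x' ≠ a := ((hy.1 a).mpr (Or.inr (Or.inl rfl))).1
  have hxx : x ≠ x' := by
    intro h
    have := @hinj 0 6 h
    exact absurd this (by decide)
  obtain ⟨f, hf1, hf0, hd⟩ := h.del hC (D := {ε 1, ε 6}) (e := ε 1) (hax.ne_loop hxa) (by simp)
    (by
      intro Y hY
      have hle : (dlt src dst Y).card ≤ 3 := by
        have h1 := card_le_card (inter_subset_right (s₁ := dlt src dst Y) (s₂ := {ε 1, ε 6}))
        have h2 := card_sdiff_add_card_inter (dlt src dst Y) {ε 1, ε 6}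
        have h4 := card_le_two (a := ε 1) (b := ε 6)
        omega
      rcases h.cut3 hC Y with h1 | h1
      · rw [card_eq_zero] at h1
        rw [h1] at hY
        simp at hY
      · have hY3 : (dlt src dst Y).card = 3 := by omega
        have hsub : ({ε 1, ε 6} : Finset E) ⊆ dlt src dst Y := by
          have h2 := card_sdiff_add_card_inter (dlt src dst Y) {ε 1, ε 6}
          have h4 := card_le_two (a := ε 1) (b := ε 6)
          have h5 : (dlt src dst Y ∩ {ε 1, ε 6}).card = 2 := by omega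
          have h6 : dlt src dst Y ∩ {ε 1, ε 6} = {ε 1, ε 6} :=
            eq_of_subset_of_card_le inter_subset_right (by omega)
          rw [← h6]; exact inter_subset_left
        obtain ⟨z, hz⟩ := h.cutV hC hY3
        have m1 : ε 1 ∈ dlt src dst {z} := by rw [hz]; exact hsub (by simp)
        have m6 : ε 6 ∈ dlt src dst {z} := by rw [hz]; exact hsub (by simp)
        obtain ⟨w, _, hw⟩ := mem_dlt_one.mp m1
        obtain ⟨w', _, hw'⟩ := mem_dlt_one.mp m6
        have hza : z = a := by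
          rcases hw.ends hax with ⟨q1, _⟩ | ⟨q1, _⟩
          · rcases hw'.ends hax' with ⟨q2, _⟩ | ⟨q2, _⟩
            · exact absurd (q1.symm.trans q2) hxx
            · exact q2
          · exact q1
        rw [hza] at hz
        rw [hz] at h3
        exact h3 hY3)
  refine h.h23solve hC hx hy hinj hε hj (f := f) ?_ (fun z _ => hd z) ?_
  · intro e he
    apply hf1
    simp only [mem_insert, mem_singleton, not_or]
    exact ⟨he 1, he 6⟩
  · left
    have h1 := outd_lab hp hq hinj hε hj f 2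
    change outd src dst ε f a = _ at h1
    rw [h1, hd, zero_add]
    simp [dv, jn, Fin.sum_univ_succ, hf0 (ε 1) (by simp), hf0 (ε 6) (by simp)]

/-- the root `a` -/
theorem MC.h23root (hC : Closed C) (h : MC C src dst) {x y a b c d x' y' : V}
    (hnd : [x, y, a, b, c, d, x', y'].Nodup)
    (hx : Dbl (Ad src dst) x y a b c d) (hy : Dbl (Ad src dst) x' y' a c b d) :
    ∃ s, N3 (Ad src dst) a x x' s ∧ s ∉ [x, y, a, b, c, d, x', y'] := by
  have h3 := h.h23deg hC hnd hx hy
  have g := h.g5 hC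
  have hxa := (hx.1 a).mpr (Or.inr (Or.inl rfl))
  have hxa' := (hy.1 a).mpr (Or.inr (Or.inl rfl))
  have hxx : x ≠ x' := by
    rintro rfl
    simp at hnd
  obtain ⟨s, s1, s2, hs⟩ := h.third hC h3 hxa.symm hxa'.symm hxx
  refine ⟨s, hs, ?_⟩
  have has := (hs s).mpr (Or.inr (Or.inr rfl))
  have hxy := (hx.1 y).mpr (Or.inl rfl)
  have hxb := (hx.1 b).mpr (Or.inr (Or.inr rfl))
  have hyd := (hx.2 d).mpr (Or.inr (Or.inr rfl))
  have hxc' := (hy.1 c).mpr (Or.inr (Or.inr rfl))
  simp only [List.nodup_cons, List.mem_cons, List.not_mem_nil, not_or, not_false_eq_true,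
    List.nodup_nil, and_true, or_false] at hnd ⊢
  obtain ⟨⟨q1, q2, q3, q4, q5, q6, q7⟩, ⟨q8, q9, q10, q11, q12, q13⟩, ⟨q14, q15, q16, q17, q18⟩,
    ⟨q19, q20, q21, q22⟩, ⟨q23, q24, q25⟩, ⟨q26, q27⟩, q28⟩ := hnd
  refine ⟨s1, ?_, ?_, ?_, ?_, ?_, s2, ?_⟩
  · rintro rfl
    rcases (hx.2 a).mp has.symm with h | h | h
    · exact q2 h.symm
    · exact q15 h
    · exact q16 h
  · rintro rfl
    exact g.irr _ has
  · rintro rfl
    exact g.tri _ _ _ has hxb.symm hxa
  · rintro rfl
    exact g.tri _ _ _ has hxc'.symm hxa'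
  · rintro rfl
    exact g.sq a s y x (Ne.symm q8) (Ne.symm q5) has hyd.symm hxy.symm hxa
  · rintro rfl
    rcases (hy.2 a).mp has.symm with h | h | h
    · exact q17 h
    · exact q14 h
    · exact q16 h

end Pool.Agent.TH499.TF
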