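import Pool.Agent.H16.Lib.S8.TH499.TF.H23b

set_option autoImplicit false
set_option linter.unusedSectionVars false

/-! # Local structure at a bag: finite combinatorics -/

namespace Pool.Agent.TH499.TF

open Finset

variable {V : Type} [Fintype V] [DecidableEq V]

/-- none of the reducible configurations occurs -/
structure NoC (A : V → V → Prop) : Prop where
  g : G5 A
  h23 : ∀ x y a b c d x' y' : V, [x, y, a, b, c, d, x', y'].Nodup → Dbl A x y a b c d →
    Dbl A x' y' a c b d → False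
  c1 : ∀ u v x1 x2 y1 y2 i i' j j' : V, [u, v, x1, x2, y1, y2, i, i', j, j'].Nodup →
    N3 A u v x1 y1 → N3 A v u i i' → Dbl A x1 x2 u j i j' → Dbl A y1 y2 u j' i' j → False
  c2 : ∀ x1 u a y1 n c x2 b y2 x3 y3 : V, [x1, u, a, y1, n, c, x2, b, y2, x3, y3].Nodup →
    Dbl A x1 y1 u a n c → Dbl A x2 y2 u b n a → Dbl A x3 y3 u c n b → False
  c3 : ∀ x1 u b y1 a n x2 c y2 x3 y3 : V, [x1, u, b, y1, a, n, x2, c, y2, x3, y3].Nodup →
    Dbl A x1 y1 u b a n → Dbl A x2 y2 u c a b → Dbl A x3 y3 u a n c → False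

/-- an arm of `u` that is part of a double -/
structure DA (A : V → V → Prop) (X : Finset V) (u x x' q r s : V) : Prop where
  n1 : N3 A x x' u q
  n2 : N3 A x' x r s
  hx : x ∉ X
  hx' : x' ∉ X
  hu : u ∈ X
  hq : q ∈ X
  hr : r ∈ X
  hs : s ∈ X
  uq : u ≠ q
  ur : u ≠ r
  us : u ≠ s
  qr : q ≠ r
  qs : q ≠ s
  rs : r ≠ s

variable {A : V → V → Prop} {X : Finset V}

theorem DA.swap {u x x' q r s : V} (h : DA A X u x x' q r s) : DA A X u x x' q s r :=
  ⟨h.n1, h.n2.swap, h.hx, h.hx', h.hu, h.hq, h.hs, h.hr, h.uq, h.us, h.ur, h.qs, h.qr, h.rs.symm⟩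

theorem DA.xu {u x x' q r s : V} (h : DA A X u x x' q r s) : A x u :=
  (h.n1 _).mpr (Or.inr (Or.inl rfl))
theorem DA.xq {u x x' q r s : V} (h : DA A X u x x' q r s) : A x q :=
  (h.n1 _).mpr (Or.inr (Or.inr rfl))
theorem DA.xx {u x x' q r s : V} (h : DA A X u x x' q r s) : A x x' :=
  (h.n1 _).mpr (Or.inl rfl)
theorem DA.xr {u x x' q r s : V} (h : DA A X u x x' q r s) : A x' r :=
  (h.n2 _).mpr (Or.inr (Or.inl rfl))
theorem DA.xs {u x x' q r s : V} (h : DA A X u x x' q r s) : A x' s :=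
  (h.n2 _).mpr (Or.inr (Or.inr rfl))

/-- doubles at `u` with different arms are disjoint -/
theorem DA.disj (g : G5 A) {u x x' q r s y y' q2 r2 s2 : V} (h : DA A X u x x' q r s)
    (h' : DA A X u y y' q2 r2 s2) (hq : q ≠ q2) : x ≠ y ∧ x ≠ y' ∧ x' ≠ y ∧ x' ≠ y' := by
  have xy : x ≠ y := by
    rintro rfl
    rcases (h'.n1 q).mp h.xq with h1 | h1 | h1
    · exact h'.hx' (h1 ▸ h.hq)
    · exact h.uq h1.symm
    · exact hq h1
  have xy' : x ≠ y' := by
    rintro rfl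
    rcases (h'.n2 u).mp h.xu with h1 | h1 | h1
    · exact h'.hx (h1 ▸ h.hu)
    · exact h'.ur h1
    · exact h'.us h1
  have x'y : x' ≠ y := by
    rintro rfl
    rcases (h.n2 u).mp h'.xu with h1 | h1 | h1
    · exact h.hx (h1 ▸ h.hu)
    · exact h.ur h1
    · exact h.us h1
  refine ⟨xy, xy', x'y, ?_⟩
  rintro rfl
  exact g.sq x u y x' xy (fun h1 => h.hx' (h1 ▸ h.hu)) h.xu (g.symm _ _ h'.xu) h'.xx
    (g.symm _ _ h.xx)

/-- two doubles with the same roots -/
theorem NoC.same (N : NoC A) {u x x' y y' q r s : V} (h : DA A X u x x' q r s)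
    (h' : DA A X u y y' r q s) : False := by
  obtain ⟨a1, a2, a3, a4⟩ := h.disj N.g h' h.qr
  have i1 : ∀ z z', z ∉ X → z' ∈ X → z ≠ z' := fun z z' h1 h2 h3 => h1 (h3 ▸ h2)
  have i2 : ∀ z z', z ∉ X → z' ∈ X → z' ≠ z := fun z z' h1 h2 h3 => h1 (h3 ▸ h2)
  have xx : x ≠ x' := fun h1 => N.g.irr x (by have := h.xx; rwa [← h1] at this)
  have yy : y ≠ y' := fun h1 => N.g.irr y (by have := h'.xx; rwa [← h1] at this)
  refine N.h23 x x' u q r s y y' ?_ ⟨h.n1, h.n2⟩ ⟨h'.n1, h'.n2⟩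
  have := h.hx; have := h.hx'; have := h'.hx; have := h'.hx'
  have := h.hu; have := h.hq; have := h.hr; have := h.hs
  have := h.uq; have := h.ur; have := h.us; have := h.qr; have := h.qs; have := h.rs
  simp only [List.nodup_cons, List.mem_cons, List.not_mem_nil, not_or, not_false_eq_true,
    List.nodup_nil, and_true, or_false]
  refine ⟨⟨xx, ?_, ?_, ?_, ?_, a1, a2⟩, ⟨?_, ?_, ?_, ?_, a3, a4⟩, ⟨?_, ?_, ?_, ?_, ?_⟩,
    ⟨?_, ?_, ?_, ?_⟩, ⟨?_, ?_, ?_⟩, ⟨?_, ?_⟩, yy⟩ <;>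
  first | assumption | exact i1 _ _ (by assumption) (by assumption) |
    exact i2 _ _ (by assumption) (by assumption)

theorem lst (hX : X.card ≤ 5) (l : List V) (hnd : l.Nodup) (hm : ∀ z ∈ l, z ∈ X)
    (hl : 6 ≤ l.length) : False := by
  have h1 : l.toFinset ⊆ X := by intro z hz; exact hm z (List.mem_toFinset.mp hz)
  have h2 := card_le_card h1
  rw [List.toFinset_card_of_nodup hnd] at h2
  omega

theorem six (hX : X.card ≤ 5) {a b c d e f : V} (hnd : [a, b, c, d, e, f].Nodup)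
    (ha : a ∈ X) (hb : b ∈ X) (hc : c ∈ X) (hd : d ∈ X) (he : e ∈ X) (hf : f ∈ X) : False := by
  apply lst hX _ hnd _ (by simp)
  intro z hz
  simp only [List.mem_cons, List.not_mem_nil, or_false] at hz
  rcases hz with rfl | rfl | rfl | rfl | rfl | rfl <;> assumption

theorem exh (hX : X.card ≤ 5) {a b c d e : V} (hnd : [a, b, c, d, e].Nodup)
    (ha : a ∈ X) (hb : b ∈ X) (hc : c ∈ X) (hd : d ∈ X) (he : e ∈ X) :
    ∀ z ∈ X, z = a ∨ z = b ∨ z = c ∨ z = d ∨ z = e := by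
  intro z hz
  by_contra hcon
  push Not at hcon
  refine six hX (a := z) (b := a) (c := b) (d := c) (e := d) (f := e) ?_ hz ha hb hc hd he
  rw [List.nodup_cons]
  refine ⟨?_, hnd⟩
  simp only [List.mem_cons, List.not_mem_nil, not_or, or_false]
  exact ⟨hcon.1, hcon.2.1, hcon.2.2.1, hcon.2.2.2.1, hcon.2.2.2.2⟩

/-- `r` is reached from `u` through `w` -/
def RR (A : V → V → Prop) (X : Finset V) (u w r : V) : Prop := r ∈ X ∧ r ≠ u ∧ (r = w ∨ A w r)

theorem RR.disj (g : G5 A) {u w w' r : V} (h1 : A u w) (h2 : A u w') (hne : w ≠ w')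
    (r1 : RR A X u w r) (r2 : RR A X u w' r) : False := by
  obtain ⟨_, hru, r1⟩ := r1
  obtain ⟨_, _, r2⟩ := r2
  rcases r1 with rfl | r1
  · rcases r2 with r2 | r2
    · exact hne r2
    · exact g.tri _ _ _ h2 r2 (g.symm _ _ h1)
  · rcases r2 with rfl | r2
    · exact g.tri _ _ _ h1 r1 (g.symm _ _ h2)
    · exact g.sq u w r w' hru.symm hne h1 r1 (g.symm _ _ r2) (g.symm _ _ h2)

theorem RR.ne (g : G5 A) {u w w' r r' : V} (h1 : A u w) (h2 : A u w') (hne : w ≠ w')
    (r1 : RR A X u w r) (r2 : RR A X u w' r') : r ≠ r' := by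
  rintro rfl
  exact RR.disj g h1 h2 hne r1 r2

theorem DA.rr {u x x' q r s : V} (h : DA A X u x x' q r s) : RR A X u x q :=
  ⟨h.hq, h.uq.symm, Or.inr h.xq⟩

/-- a single at `u` -/
structure SA (A : V → V → Prop) (X : Finset V) (u v i i' : V) : Prop where
  hv : v ∉ X
  hall : ∀ y, A v y → y ∈ X
  vi : A v i
  vi' : A v i'
  iu : i ≠ u
  iu' : i' ≠ u
  ii : i ≠ i'

theorem SA.swap {u v i i' : V} (h : SA A X u v i i') : SA A X u v i' i :=
  ⟨h.hv, h.hall, h.vi', h.vi, h.iu', h.iu, h.ii.symm⟩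

theorem SA.hi {u v i i' : V} (h : SA A X u v i i') : i ∈ X := h.hall _ h.vi
theorem SA.hi' {u v i i' : V} (h : SA A X u v i i') : i' ∈ X := h.hall _ h.vi'
theorem SA.rr {u v i i' : V} (h : SA A X u v i i') : RR A X u v i := ⟨h.hi, h.iu, Or.inr h.vi⟩
theorem SA.rr' {u v i i' : V} (h : SA A X u v i i') : RR A X u v i' :=
  ⟨h.hi', h.iu', Or.inr h.vi'⟩

/-- the situation at a bag -/
structure Loc (A : V → V → Prop) (X P : Finset V) : Prop where
  card : X.card ≤ 5
  nb : ∀ p ∈ P, ∀ y, A p y → y ∈ P ∨ y ∈ X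
  deg : ∀ p ∈ P, ∃ a b c, a ≠ b ∧ b ≠ c ∧ a ≠ c ∧ A p a ∧ A p b ∧ A p c
  q : ∀ x ∈ P, x ∉ X → (∀ y, A x y → y ∈ X) ∨ ∃ x' p q r s, N3 A x x' p q ∧ N3 A x' x r s ∧
    x' ∉ X ∧ p ∈ X ∧ q ∈ X ∧ r ∈ X ∧ s ∈ X ∧ [p, q, r, s].Nodup

theorem Loc.arm {P : Finset V} (L : Loc A X P) (g : G5 A) {u w : V} (hu : u ∈ P) (huX : u ∈ X)
    (h : A u w) : w ∈ X ∨ (∃ i i', SA A X u w i i') ∨ ∃ x' q r s, DA A X u w x' q r s := by
  by_cases hw : w ∈ X
  · exact Or.inl hw
  right
  have hwP : w ∈ P := (L.nb u hu w h).resolve_right hw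
  rcases L.q w hwP hw with hs | ⟨x', p, q, r, s, h1, h2, h3, h4, h5, h6, h7, h8⟩
  · left
    obtain ⟨a, b, c, hab, hbc, hac, ha, hb, hc⟩ := L.deg w hwP
    by_cases ea : a = u
    · exact ⟨b, c, hw, hs, hb, hc, fun h => hab (ea.trans h.symm), fun h => hac (ea.trans h.symm),
        hbc⟩
    · by_cases eb : b = u
      · exact ⟨a, c, hw, hs, ha, hc, ea, fun h => hbc (eb.trans h.symm), hac⟩
      · exact ⟨a, b, hw, hs, ha, hb, ea, eb, hab⟩
  · right
    simp only [List.nodup_cons, List.mem_cons, List.not_mem_nil, not_or, not_false_eq_true,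
      List.nodup_nil, and_true, or_false] at h8
    obtain ⟨⟨a1, a2, a3⟩, ⟨a4, a5⟩, a6⟩ := h8
    rcases (h1 u).mp (g.symm _ _ h) with e | e | e
    · exact absurd (e ▸ huX) h3
    · subst e
      exact ⟨x', q, r, s, h1, h2, hw, h3, huX, h5, h6, h7, a1, a2, a3, a4, a5, a6⟩
    · subst e
      exact ⟨x', p, r, s, h1.swap, h2, hw, h3, huX, h4, h6, h7, Ne.symm a1, a4, a5, a2, a3, a6⟩

theorem Loc.rr {P : Finset V} (L : Loc A X P) (g : G5 A) {u w : V} (hu : u ∈ P) (huX : u ∈ X)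
    (h : A u w) : ∃ r, RR A X u w r := by
  rcases L.arm g hu huX h with h1 | ⟨i, i', h1⟩ | ⟨x', q, r, s, h1⟩
  · exact ⟨w, h1, fun e => g.irr u (e ▸ h), Or.inl rfl⟩
  · exact ⟨i, h1.rr⟩
  · exact ⟨q, h1.rr⟩

/-- the far roots of a double, known up to three possibilities -/
theorem DA.pick3 {u x x' q r s α β γ : V} (h : DA A X u x x' q r s)
    (hX : ∀ z ∈ X, z = u ∨ z = q ∨ z = α ∨ z = β ∨ z = γ) :
    DA A X u x x' q α β ∨ DA A X u x x' q α γ ∨ DA A X u x x' q β γ := by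
  rcases hX r h.hr with e | e | e | e | e
  · exact absurd e.symm h.ur
  · exact absurd e.symm h.qr
  · subst e
    rcases hX s h.hs with e | e | e | e | e
    · exact absurd e.symm h.us
    · exact absurd e.symm h.qs
    · exact absurd e.symm h.rs
    · subst e; exact Or.inl h
    · subst e; exact Or.inr (Or.inl h)
  · subst e
    rcases hX s h.hs with e | e | e | e | e
    · exact absurd e.symm h.us
    · exact absurd e.symm h.qs
    · subst e; exact Or.inl h.swap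
    · exact absurd e.symm h.rs
    · subst e; exact Or.inr (Or.inr h)
  · subst e
    rcases hX s h.hs with e | e | e | e | e
    · exact absurd e.symm h.us
    · exact absurd e.symm h.qs
    · subst e; exact Or.inr (Or.inl h.swap)
    · subst e; exact Or.inr (Or.inr h.swap)
    · exact absurd e.symm h.rs

/-- the far roots of a double, known up to two possibilities -/
theorem DA.pick2 {u x x' q r s α β : V} (h : DA A X u x x' q r s)
    (hX : ∀ z ∈ X, A x' z → z = u ∨ z = q ∨ z = α ∨ z = β) :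
    DA A X u x x' q α β := by
  rcases hX r h.hr h.xr with e | e | e | e
  · exact absurd e.symm h.ur
  · exact absurd e.symm h.qr
  · subst e
    rcases hX s h.hs h.xs with e | e | e | e
    · exact absurd e.symm h.us
    · exact absurd e.symm h.qs
    · exact absurd e.symm h.rs
    · subst e; exact h
  · subst e
    rcases hX s h.hs h.xs with e | e | e | e
    · exact absurd e.symm h.us
    · exact absurd e.symm h.qs
    · subst e; exact h.swap
    · exact absurd e.symm h.rs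

end Pool.Agent.TH499.TF
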