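import Pool.Agent.H16.Lib.S8.TH499.TF.TreeP

set_option autoImplicit false
set_option linter.unusedSectionVars false

/-! # Petersen minors -/

namespace Pool.Agent.TH499.TF

open Finset

variable {V E : Type} [Fintype V] [DecidableEq V] [Fintype E] [DecidableEq E]
variable {src dst : E → V}

/-- the vertices of the Petersen graph -/
abbrev Pr := {s : Finset (Fin 5) // s.card = 2}

/-- a Petersen minor, with connectedness in terms of cuts -/
def PM (src dst : E → V) : Prop :=
  ∃ S : Pr → Finset V, (∀ i, CC src dst (S i)) ∧ (∀ i j, i ≠ j → Disjoint (S i) (S j)) ∧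
    ∀ i j : Pr, Disjoint i.1 j.1 → ∃ e x y, x ∈ S i ∧ y ∈ S j ∧ Joins src dst e x y

theorem pr_ne : ∀ i j : Pr, Disjoint i.1 j.1 → i ≠ j := by
  rintro i j h rfl
  have h1 : i.1 = ∅ := by simpa using h
  have := i.2
  rw [h1] at this
  simp at this

theorem Joins.of_lp {D : Finset E} {e : E} {x y : V} (hxy : x ≠ y)
    (h : Joins src (lp src dst D) e x y) : Joins src dst e x y := by
  unfold Joins lp at h
  by_cases he : e ∈ D
  · rw [if_pos he] at h
    rcases h with ⟨h1, h2⟩ | ⟨h1, h2⟩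
    · exact absurd (h1.symm.trans h2) hxy
    · exact absurd (h2.symm.trans h1) hxy
  · rw [if_neg he] at h
    exact h

theorem PM.of_lp {D : Finset E} (h : PM src (lp src dst D)) : PM src dst := by
  obtain ⟨S, h1, h2, h3⟩ := h
  refine ⟨S, ?_, h2, ?_⟩
  · intro i A hA hne hAY
    obtain ⟨e, a, b, ha, hb, hbA, hj⟩ := h1 i A hA hne hAY
    exact ⟨e, a, b, ha, hb, hbA, hj.of_lp (fun h => hbA (h ▸ ha))⟩
  · intro i j hij
    obtain ⟨e, x, y, hx, hy, hj⟩ := h3 i j hij
    refine ⟨e, x, y, hx, hy, hj.of_lp ?_⟩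
    rintro rfl
    exact disjoint_left.mp (h2 i j (pr_ne i j hij)) hx hy

theorem PM.of_phi {u v : V} {e0 : E} (huv : u ≠ v) (hj0 : Joins src dst e0 u v)
    (h : PM (phi u v ∘ src) (phi u v ∘ dst)) : PM src dst := by
  classical
  obtain ⟨S, h1, h2, h3⟩ := h
  have hphi : ∀ x z, phi u v x = phi u v z → x = z ∨ (x = u ∧ z = v) ∨ (x = v ∧ z = u) := by
    intro x z
    unfold phi
    by_cases hx : x = v <;> by_cases hz : z = v
    · intro _; exact Or.inl (hx.trans hz.symm)
    · rw [if_pos hx, if_neg hz]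
      intro h; exact Or.inr (Or.inr ⟨hx, h.symm⟩)
    · rw [if_neg hx, if_pos hz]
      intro h; exact Or.inr (Or.inl ⟨h, hz⟩)
    · rw [if_neg hx, if_neg hz]
      intro h; exact Or.inl h
  have hju : ∀ e x y, Joins (phi u v ∘ src) (phi u v ∘ dst) e x y →
      ∃ x' y', phi u v x' = x ∧ phi u v y' = y ∧ Joins src dst e x' y' := by
    rintro e x y (⟨a, b⟩ | ⟨a, b⟩)
    · exact ⟨src e, dst e, a, b, Or.inl ⟨rfl, rfl⟩⟩
    · exact ⟨dst e, src e, b, a, Or.inr ⟨rfl, rfl⟩⟩
  refine ⟨fun i => univ.filter (fun x => phi u v x ∈ S i), ?_, ?_, ?_⟩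
  · intro i A hA hne hAY
    by_cases hsep : (u ∈ A ∧ v ∉ A) ∨ (v ∈ A ∧ u ∉ A)
    · have huv2 : phi u v u = phi u v v := by
        unfold phi; rw [if_neg huv, if_pos rfl]
      rcases hsep with ⟨a, b⟩ | ⟨a, b⟩
      · have := (mem_filter.mp (hA a)).2
        rw [huv2] at this
        exact ⟨e0, u, v, a, mem_filter.mpr ⟨mem_univ _, this⟩, b, hj0⟩
      · have := (mem_filter.mp (hA a)).2
        rw [← huv2] at this
        exact ⟨e0, v, u, a, mem_filter.mpr ⟨mem_univ _, this⟩, b, hj0.symm⟩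
    · have sat : ∀ x z, phi u v x = phi u v z → x ∈ A → z ∈ A := by
        intro x z hxz hx
        rcases hphi x z hxz with h | ⟨h, h'⟩ | ⟨h, h'⟩
        · exact h ▸ hx
        · by_contra hz
          exact hsep (Or.inl ⟨h ▸ hx, h' ▸ hz⟩)
        · by_contra hz
          exact hsep (Or.inr ⟨h ▸ hx, h' ▸ hz⟩)
      have hA' : A.image (phi u v) ⊆ S i := by
        intro y hy
        obtain ⟨x, hx, rfl⟩ := mem_image.mp hy
        exact (mem_filter.mp (hA hx)).2
      have hAY' : A.image (phi u v) ≠ S i := by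
        intro hEq
        apply hAY
        apply subset_antisymm hA
        intro z hz
        have hz2 := (mem_filter.mp hz).2
        rw [← hEq] at hz2
        obtain ⟨x, hx, hxz⟩ := mem_image.mp hz2
        exact sat x z hxz hx
      obtain ⟨e, a, b, ha, hb, hbA, hj⟩ := h1 i _ hA' (hne.image _) hAY'
      obtain ⟨x', y', hx', hy', hj'⟩ := hju e a b hj
      obtain ⟨x, hx, hxa⟩ := mem_image.mp ha
      refine ⟨e, x', y', sat x x' (hxa.trans hx'.symm) hx, ?_, ?_, hj'⟩
      · exact mem_filter.mpr ⟨mem_univ _, by rw [hy']; exact hb⟩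
      · intro hyA
        apply hbA
        rw [← hy']
        exact mem_image_of_mem _ hyA
  · intro i j hij
    rw [disjoint_left]
    intro x hx hx2
    exact disjoint_left.mp (h2 i j hij) (mem_filter.mp hx).2 (mem_filter.mp hx2).2
  · intro i j hij
    obtain ⟨e, x, y, hx, hy, hj⟩ := h3 i j hij
    obtain ⟨x', y', hx', hy', hj'⟩ := hju e x y hj
    exact ⟨e, x', y', mem_filter.mpr ⟨mem_univ _, by rw [hx']; exact hx⟩,
      mem_filter.mpr ⟨mem_univ _, by rw [hy']; exact hy⟩, hj'⟩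

/-- numbering of the vertices of the Petersen graph -/
def lab (i : Pr) : Fin 10 :=
  if i.1 = {0, 1} then 0 else if i.1 = {2, 3} then 1 else if i.1 = {2, 4} then 2 else
  if i.1 = {3, 4} then 3 else if i.1 = {0, 4} then 4 else if i.1 = {1, 4} then 5 else
  if i.1 = {1, 3} then 6 else if i.1 = {0, 2} then 7 else if i.1 = {0, 3} then 8 else 9

set_option maxRecDepth 100000 in
theorem lab_inj : ∀ i j : Pr, lab i = lab j → i = j := by decide

set_option maxRecDepth 100000 in
theorem lab_adj : ∀ i j : Pr, Disjoint i.1 j.1 →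
    ∃ k : Fin 15, (pp k = lab i ∧ pq k = lab j) ∨ (pp k = lab j ∧ pq k = lab i) := by decide

theorem PM.of_pet {l : Fin 10 → V} (h : Pet (Ad src dst) l) : PM src dst := by
  obtain ⟨hinj, hadj⟩ := h
  refine ⟨fun i => {l (lab i)}, ?_, ?_, ?_⟩
  · intro i A hA hne hAY
    exfalso
    apply hAY
    apply subset_antisymm hA
    obtain ⟨a, ha⟩ := hne
    have := hA ha
    rw [mem_singleton] at this
    intro z hz
    rw [mem_singleton] at hz
    rw [hz, ← this]; exact ha
  · intro i j hij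
    rw [disjoint_singleton_left, mem_singleton]
    intro h
    exact hij (lab_inj i j (hinj h))
  · intro i j hij
    obtain ⟨k, hk⟩ := lab_adj i j hij
    obtain ⟨_, e, he⟩ := hadj k
    rcases hk with ⟨h1, h2⟩ | ⟨h1, h2⟩
    · rw [h1, h2] at he
      exact ⟨e, _, _, mem_singleton_self _, mem_singleton_self _, he⟩
    · rw [h1, h2] at he
      exact ⟨e, _, _, mem_singleton_self _, mem_singleton_self _, he.symm⟩

/-- the class of graphs considered -/
def Cls (src dst : E → V) : Prop := HasTD 5 src dst ∧ ¬ PM src dst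

theorem HasTD.symm {w : ℕ} (h : HasTD w src dst) : HasTD w dst src := by
  obtain ⟨n, par, B, h0, h1, h2, h4⟩ := h
  refine ⟨n, par, B, h0, fun e => ?_, h2, h4⟩
  obtain ⟨i, hin, hi1, hi2⟩ := h1 e
  exact ⟨i, hin, hi2, hi1⟩

theorem cls_closed : Closed (Cls : (E → V) → (E → V) → Prop) := by
  refine ⟨?_, ?_⟩
  · rintro src dst u v e ⟨h1, h2⟩ huv hj
    refine ⟨?_, fun h => h2 (h.of_phi huv hj)⟩
    rcases hj with ⟨a, b⟩ | ⟨a, b⟩
    · have := HasTD.contract src dst e h1 (by rw [a, b]; exact huv)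
      rw [a, b] at this
      exact this
    · have := HasTD.contract dst src e h1.symm (by rw [a, b]; exact huv)
      rw [a, b] at this
      exact this.symm
  · rintro src dst D ⟨h1, h2⟩
    exact ⟨HasTD.loop src dst D h1, fun h => h2 h.of_lp⟩

theorem nz_of_loops (h : ∀ e, src e = dst e) : NZ src dst := by
  refine ⟨fun _ => (1, 0), fun e => by change ((1, 0) : K) ≠ 0; decide, fun x => ?_⟩
  unfold dv
  refine sum_eq_zero fun e _ => ?_
  rw [h e, jn_loop]

theorem MC.false (h : MC Cls src dst) : False := by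
  classical
  have hC := cls_closed (V := V) (E := E)
  have hP : ∀ l, ¬ Pet (Ad src dst) l := fun l hl => h.cls.2 (PM.of_pet hl)
  have hN : NoC (Ad src dst) := ⟨h.g5 hC,
    fun x y a b c d x' y' hnd hx hy => h.h23 hC hP hnd hx hy,
    fun u v x1 x2 y1 y2 i i' j j' hnd h1 h2 h3 h4 => h.c1 hC hnd h1 h2 h3 h4,
    fun x1 u a y1 n c x2 b y2 x3 y3 hnd h1 h2 h3 => h.c2 hC hnd h1 h2 h3,
    fun x1 u b y1 a n x2 c y2 x3 y3 hnd h1 h2 h3 => h.c3 hC hnd h1 h2 h3⟩
  have hex : ∃ e, src e ≠ dst e := by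
    by_contra hcon
    push Not at hcon
    exact h.nz (nz_of_loops hcon)
  obtain ⟨e0, he0⟩ := hex
  obtain ⟨n, par, B, h0, h1, h2, h4⟩ := h.cls.1
  have hn : 0 < n := by
    obtain ⟨i, hi, _⟩ := h1 e0
    omega
  have hD : TD src dst 5 (range n) par
      (fun i => (B i).filter (fun x => ∃ y, Ad src dst x y)) := by
    refine ⟨mem_range.mpr hn, ?_, ?_, ?_, ?_⟩
    · intro i hi hi0
      rw [mem_range] at hi
      have := h0 i (by omega) hi
      exact ⟨mem_range.mpr (by omega), this⟩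
    · intro e he
      obtain ⟨i, hi, h5, h6⟩ := h1 e
      exact ⟨i, mem_range.mpr hi, mem_filter.mpr ⟨h5, dst e, he, e, Or.inl ⟨rfl, rfl⟩⟩,
        mem_filter.mpr ⟨h6, src e, he.symm, e, Or.inr ⟨rfl, rfl⟩⟩⟩
    · intro i hi j _ v hji hvi hvj
      rw [mem_filter] at hvi hvj
      exact mem_filter.mpr ⟨h2 i j v hji (mem_range.mp hi) hvi.1 hvj.1, hvi.2⟩
    · intro i hi
      exact (card_filter_le _ _).trans (h4 i (mem_range.mp hi))
  obtain ⟨N', par', hD', hmin⟩ := TD.minimal _ (range n) par rfl hD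
  exact h.noTD hC hN hD' hmin (fun i _ x hx => (mem_filter.mp hx).2)
    ⟨src e0, dst e0, he0, e0, Or.inl ⟨rfl, rfl⟩⟩

theorem cls_nz (n : ℕ) : ∀ src dst : E → V, nl src dst = n → Cls src dst →
    (∀ Y, (dlt src dst Y).card ≠ 1) → NZ src dst := by
  induction n using Nat.strong_induction_on with
  | _ n ih =>
    intro src dst hn hc hb
    by_contra hnz
    exact MC.false (src := src) (dst := dst) ⟨hnz, hb, hc, fun s' d' hlt hc' hb' =>
      ih _ (by rw [← hn]; exact hlt) s' d' rfl hc' hb'⟩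

end Pool.Agent.TH499.TF
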