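import Pool.Agent.H16.Lib.S8.TH499.TF.Basic

set_option autoImplicit false

/-! # Replacing the values inside a small part; short circuits -/

namespace Pool.Agent.TH499.TF

open Finset

variable {V E : Type} [Fintype V] [DecidableEq V] [Fintype E] [DecidableEq E]

/-- the demand at `x` caused by the edges outside the part -/
def outd (src dst : E → V) {m : ℕ} (ε : Fin m → E) (f : E → K) (x : V) : K :=
  ∑ e ∈ univ.filter (fun e => ∀ k, e ≠ ε k), jn (src e) (dst e) (f e) x

omit [Fintype V] in
theorem dv_split (src dst : E → V) {m : ℕ} {ε : Fin m → E} (hε : Function.Injective ε)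
    (f : E → K) (x : V) :
    dv src dst f x = outd src dst ε f x + ∑ k, jn (src (ε k)) (dst (ε k)) (f (ε k)) x := by
  unfold dv outd
  have h1 : ∑ k, jn (src (ε k)) (dst (ε k)) (f (ε k)) x
      = ∑ e ∈ univ.image ε, jn (src e) (dst e) (f e) x := by
    rw [sum_image (fun a _ b _ h => hε h)]
  have h2 : univ.filter (fun e => ∀ k, e ≠ ε k) = univ \ univ.image ε := by
    ext e
    simp only [mem_filter, mem_univ, true_and, mem_sdiff, mem_image, not_exists]
    exact ⟨fun h k hk => h k hk.symm, fun h k hk => h k hk.symm⟩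
  rw [h1, h2, sum_sdiff (subset_univ _)]

/-- replacing the values on a part -/
theorem nz_of_part {src dst : E → V} {m : ℕ} {ε : Fin m → E} (hε : Function.Injective ε)
    {f : E → K} (hf : ∀ e, (∀ k, e ≠ ε k) → f e ≠ 0) {t : Fin m → K} (ht : ∀ k, t k ≠ 0)
    (hd : ∀ x, outd src dst ε f x = ∑ k, jn (src (ε k)) (dst (ε k)) (t k) x) :
    NZ src dst := by
  classical
  refine ⟨Function.extend ε t f, fun e => ?_, fun x => ?_⟩
  · by_cases h : ∃ k, ε k = e
    · obtain ⟨k, rfl⟩ := h
      rw [hε.extend_apply]; exact ht k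
    · rw [Function.extend_apply' _ _ _ h]
      exact hf e (fun k hk => h ⟨k, hk.symm⟩)
  · rw [dv_split src dst hε]
    have h1 : outd src dst ε (Function.extend ε t f) x = outd src dst ε f x := by
      unfold outd
      refine sum_congr rfl fun e he => ?_
      rw [mem_filter] at he
      rw [Function.extend_apply' _ _ _ (by rintro ⟨k, hk⟩; exact he.2 k hk.symm)]
    have h2 : ∀ k, Function.extend ε t f (ε k) = t k := fun k => hε.extend_apply _ _ _
    simp only [h2]
    rw [h1, hd x, K_add_self]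

/-- the same with labels -/
theorem gl {src dst : E → V} {N m : ℕ} (p q : Fin m → Fin N) {l : Fin N → V}
    (hl : Function.Injective l) {ε : Fin m → E} (hε : Function.Injective ε)
    (hj : ∀ k, Joins src dst (ε k) (l (p k)) (l (q k)))
    {f : E → K} (hf : ∀ e, (∀ k, e ≠ ε k) → f e ≠ 0)
    (hd : ∀ x, (∀ i, x ≠ l i) → dv src dst f x = 0)
    {t : Fin m → K} (ht : ∀ k, t k ≠ 0)
    (hs : ∀ i, outd src dst ε f (l i) = dv p q t i) : NZ src dst := by
  have hlab : ∀ (s : Fin m → K) (i : Fin N),
      ∑ k, jn (src (ε k)) (dst (ε k)) (s k) (l i) = dv p q s i := by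
    intro s i
    unfold dv
    refine sum_congr rfl fun k _ => ?_
    rw [(hj k).jn]
    unfold jn
    simp only [hl.eq_iff]
  refine nz_of_part hε hf ht fun x => ?_
  by_cases hx : ∃ i, x = l i
  · obtain ⟨i, rfl⟩ := hx
    rw [hs i, hlab]
  · push Not at hx
    have h0 : ∀ s : Fin m → K, ∑ k, jn (src (ε k)) (dst (ε k)) (s k) x = 0 := by
      intro s
      refine sum_eq_zero fun k _ => ?_
      rw [(hj k).jn]
      unfold jn
      rw [if_neg (fun h => hx _ h.symm), if_neg (fun h => hx _ h.symm), add_zero]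
    have h1 := hd x hx
    rw [dv_split src dst hε, h0 (fun k => f (ε k)), add_zero] at h1
    rw [h0 t, h1]

theorem sum_outd {src dst : E → V} {N m : ℕ} (p q : Fin m → Fin N) {l : Fin N → V}
    (hl : Function.Injective l) {ε : Fin m → E} (hε : Function.Injective ε)
    (hj : ∀ k, Joins src dst (ε k) (l (p k)) (l (q k)))
    {f : E → K} (hd : ∀ x, (∀ i, x ≠ l i) → dv src dst f x = 0) :
    ∑ i, outd src dst ε f (l i) = 0 := by
  have h1 : ∀ i, outd src dst ε f (l i) = dv src dst f (l i) + dv p q (fun k => f (ε k)) i := by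
    intro i
    rw [dv_split src dst hε]
    have h2 : ∑ k, jn (src (ε k)) (dst (ε k)) (f (ε k)) (l i)
        = dv p q (fun k => f (ε k)) i := by
      unfold dv
      refine sum_congr rfl fun k _ => ?_
      rw [(hj k).jn]
      unfold jn
      simp only [hl.eq_iff]
    rw [h2, add_assoc, K_add_self, add_zero]
  rw [sum_congr rfl fun i _ => h1 i, sum_add_distrib, sum_dv_univ, add_zero]
  have h3 := sum_dv_univ src dst f
  rw [← sum_subset (subset_univ (univ.image l)), sum_image (fun a _ b _ h => hl h)] at h3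
  · exact h3
  · intro x _ hx
    apply hd x
    intro i hi
    apply hx
    rw [hi]
    exact mem_image_of_mem _ (mem_univ _)

/-- no demand at a vertex all of whose edges are in the part -/
theorem outd_zero {src dst : E → V} {m : ℕ} {ε : Fin m → E} {f : E → K} {x : V}
    (h : ∀ e, src e ≠ dst e → (src e = x ∨ dst e = x) → ∃ k, e = ε k) :
    outd src dst ε f x = 0 := by
  unfold outd
  refine sum_eq_zero fun e he => ?_
  rw [mem_filter] at he
  by_cases h1 : src e = dst e
  · rw [h1, jn_loop]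
  · by_cases h2 : src e = x ∨ dst e = x
    · obtain ⟨k, hk⟩ := h e h1 h2
      exact absurd hk (he.2 k)
    · push Not at h2
      unfold jn
      rw [if_neg h2.1, if_neg h2.2, add_zero]

variable {C : (E → V) → (E → V) → Prop} {src dst : E → V}

omit [Fintype V] [Fintype E] [DecidableEq V] [DecidableEq E] in
theorem Joins.ne_loop {src dst : E → V} {e : E} {x y : V} (h : Joins src dst e x y)
    (hxy : x ≠ y) : src e ≠ dst e := by
  rcases h with ⟨h1, h2⟩ | ⟨h1, h2⟩
  · rw [h1, h2]; exact hxy
  · rw [h1, h2]; exact hxy.symm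

omit [Fintype V] [Fintype E] [DecidableEq V] [DecidableEq E] in
theorem Joins.ends {src dst : E → V} {e : E} {x y z w : V} (h : Joins src dst e x y)
    (h' : Joins src dst e z w) : (x = z ∧ y = w) ∨ (x = w ∧ y = z) := by
  rcases h with ⟨h1, h2⟩ | ⟨h1, h2⟩ <;> rcases h' with ⟨h3, h4⟩ | ⟨h3, h4⟩
  · left; exact ⟨h1.symm.trans h3, h2.symm.trans h4⟩
  · right; exact ⟨h1.symm.trans h3, h2.symm.trans h4⟩
  · right; exact ⟨h2.symm.trans h4, h1.symm.trans h3⟩
  · left; exact ⟨h2.symm.trans h4, h1.symm.trans h3⟩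

theorem solve2 : ∀ d : K, ∃ a b : K, a ≠ 0 ∧ b ≠ 0 ∧ a + b = d := by decide

theorem MC.par (hC : Closed C) (h : MC C src dst) {e e' : E} {x y : V} (hxy : x ≠ y)
    (h1 : Joins src dst e x y) (h2 : Joins src dst e' x y) : e = e' := by
  by_contra hne
  have hG : Grow src dst {x, y} :=
    Grow.add {y} x y e (Grow.one _) (by simpa using hxy) (by simp) h1
  have hm : src e ∈ ({x, y} : Finset V) ∧ dst e ∈ ({x, y} : Finset V) := by
    rcases h1 with ⟨h3, h4⟩ | ⟨h3, h4⟩ <;> rw [h3, h4] <;> simp
  obtain ⟨f, hf, hd⟩ := h.con hC hG (h1.ne_loop hxy) hm.1 hm.2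
  set ε : Fin 2 → E := ![e, e'] with hεd
  have hε : Function.Injective ε := by
    intro i j hij
    fin_cases i <;> fin_cases j <;> simp_all [eq_comm]
  set l : Fin 2 → V := ![x, y] with hld
  have hl : Function.Injective l := by
    intro i j hij
    fin_cases i <;> fin_cases j <;> simp_all [eq_comm]
  have hj : ∀ k, Joins src dst (ε k) (l ((fun _ => 0) k)) (l ((fun _ => 1) k)) := by
    intro k
    fin_cases k
    · exact h1
    · exact h2
  have hd' : ∀ z, (∀ i, z ≠ l i) → dv src dst f z = 0 := by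
    intro z hz
    apply hd
    have a := hz 0
    have b := hz 1
    simp only [mem_insert, mem_singleton, not_or]
    exact ⟨a, b⟩
  have hsum := sum_outd (fun _ => 0) (fun _ => 1) hl hε hj hd'
  rw [Fin.sum_univ_two] at hsum
  obtain ⟨a, b, ha, hb, hab⟩ := solve2 (outd src dst ε f (l 0))
  apply h.nz
  refine gl (fun _ => 0) (fun _ => 1) hl hε hj (fun e _ => hf e) hd' (t := ![a, b]) ?_ ?_
  · intro k; fin_cases k
    · exact ha
    · exact hb
  · intro i
    fin_cases i
    · change outd src dst ε f (l 0) = _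
      rw [← hab]
      simp [dv, jn]
    · change outd src dst ε f (l 1) = _
      rw [← K_eq_of_add hsum, ← hab]
      simp [dv, jn]

theorem solve3 : ∀ d1 d2 d3 : K, d1 + d2 + d3 = 0 → ∃ a b c : K, a ≠ 0 ∧ b ≠ 0 ∧ c ≠ 0 ∧
    a + c = d1 ∧ a + b = d2 ∧ b + c = d3 := by decide

theorem MC.tri (hC : Closed C) (h : MC C src dst) {e1 e2 e3 : E} {x y z : V} (hxy : x ≠ y)
    (hyz : y ≠ z) (hzx : z ≠ x) (h1 : Joins src dst e1 x y) (h2 : Joins src dst e2 y z)
    (h3 : Joins src dst e3 z x) : False := by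
  have hG : Grow src dst {x, y, z} :=
    Grow.add {y, z} x y e1 (Grow.add {z} y z e2 (Grow.one _) (by simpa using hyz) (by simp) h2)
      (by simpa using ⟨hxy, hzx.symm⟩) (by simp) h1
  have hm : src e1 ∈ ({x, y, z} : Finset V) ∧ dst e1 ∈ ({x, y, z} : Finset V) := by
    rcases h1 with ⟨h3, h4⟩ | ⟨h3, h4⟩ <;> rw [h3, h4] <;> simp
  obtain ⟨f, hf, hd⟩ := h.con hC hG (h1.ne_loop hxy) hm.1 hm.2
  have n12 : e1 ≠ e2 := by
    rintro rfl
    rcases h1.ends h2 with ⟨a, b⟩ | ⟨a, b⟩
    · exact hxy a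
    · exact hzx a.symm
  have n13 : e1 ≠ e3 := by
    rintro rfl
    rcases h1.ends h3 with ⟨a, b⟩ | ⟨a, b⟩
    · exact hzx a.symm
    · exact hyz b
  have n23 : e2 ≠ e3 := by
    rintro rfl
    rcases h2.ends h3 with ⟨a, b⟩ | ⟨a, b⟩
    · exact hyz a
    · exact hxy a.symm
  set ε : Fin 3 → E := ![e1, e2, e3] with hεd
  have hε : Function.Injective ε := by
    intro i j hij
    fin_cases i <;> fin_cases j <;> simp_all [eq_comm]
  set l : Fin 3 → V := ![x, y, z] with hld
  have hl : Function.Injective l := by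
    intro i j hij
    fin_cases i <;> fin_cases j <;> simp_all [eq_comm]
  have hj : ∀ k, Joins src dst (ε k) (l ((![0, 1, 2] : Fin 3 → Fin 3) k))
      (l ((![1, 2, 0] : Fin 3 → Fin 3) k)) := by
    intro k
    fin_cases k
    · exact h1
    · exact h2
    · exact h3
  have hd' : ∀ z, (∀ i, z ≠ l i) → dv src dst f z = 0 := by
    intro z hz
    apply hd
    simp only [mem_insert, mem_singleton, not_or]
    exact ⟨hz 0, hz 1, hz 2⟩
  have hsum := sum_outd _ _ hl hε hj hd'
  rw [Fin.sum_univ_three] at hsum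
  obtain ⟨a, b, c, ha, hb, hc, q1, q2, q3⟩ := solve3 _ _ _ hsum
  apply h.nz
  refine gl _ _ hl hε hj (fun e _ => hf e) hd' (t := ![a, b, c]) ?_ ?_
  · intro k; fin_cases k
    · exact ha
    · exact hb
    · exact hc
  · intro i
    fin_cases i
    · change outd src dst ε f (l 0) = _
      rw [← q1]
      simp [dv, jn, Fin.sum_univ_three]
    · change outd src dst ε f (l 1) = _
      rw [← q2]
      simp [dv, jn, Fin.sum_univ_three]
    · change outd src dst ε f (l 2) = _
      rw [← q3]
      simp [dv, jn, Fin.sum_univ_three]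

end Pool.Agent.TH499.TF
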