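import Pool.Agent.H16.Lib.S8.TH499.TF.Config
set_option autoImplicit false

/-! # Finite computations in `Z_2 x Z_2` -/

namespace Pool.Agent.TH499.TF

set_option synthInstance.maxSize 4096 in
set_option maxRecDepth 100000 in
theorem solC1 : ∀ d0 d1 d2 : K, ∃ p : K, p ≠ 0 ∧ d0 + p ≠ 0 ∧ ∃ q : K, q ≠ 0 ∧ p + q ≠ 0 ∧ d1 + q ≠ 0 ∧
    ∃ r : K, r ≠ 0 ∧ p + q + r ≠ 0 ∧ ∃ s : K, s ≠ 0 ∧ r + s ≠ 0 ∧ r + s + (d0 + p) ≠ 0 ∧ d2 + s ≠ 0 ∧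
    (d1 + q) + (d2 + s) ≠ 0 ∧ (p + q + r) + ((d1 + q) + (d2 + s)) ≠ 0 := by decide

set_option synthInstance.maxSize 4096 in
set_option maxRecDepth 100000 in
theorem solC2 : ∀ du da db dc : K, ∃ a1 : K, a1 ≠ 0 ∧ ∃ a2 : K, a2 ≠ 0 ∧ du + a1 + a2 ≠ 0 ∧
    ∃ b1 : K, b1 ≠ 0 ∧ da + b1 ≠ 0 ∧ a1 + b1 ≠ 0 ∧
    ∃ b2 : K, b2 ≠ 0 ∧ db + b2 ≠ 0 ∧ a2 + b2 ≠ 0 ∧ a2 + b2 + (da + b1) ≠ 0 ∧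
    ∃ b3 : K, b3 ≠ 0 ∧ dc + b3 ≠ 0 ∧ (du + a1 + a2) + b3 ≠ 0 ∧ a1 + b1 + (dc + b3) ≠ 0 ∧
      (du + a1 + a2) + b3 + (db + b2) ≠ 0 := by decide

set_option synthInstance.maxSize 4096 in
set_option maxRecDepth 100000 in
theorem solC3 : ∀ du da db dc : K, ∃ a1 : K, a1 ≠ 0 ∧ ∃ a2 : K, a2 ≠ 0 ∧ du + a1 + a2 ≠ 0 ∧
    ∃ b1 : K, b1 ≠ 0 ∧ db + b1 ≠ 0 ∧ a1 + b1 ≠ 0 ∧
    ∃ b2 : K, b2 ≠ 0 ∧ dc + b2 ≠ 0 ∧ a2 + b2 ≠ 0 ∧ a2 + b2 + (db + b1) ≠ 0 ∧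
    ∃ b3 : K, b3 ≠ 0 ∧ (du + a1 + a2) + b3 ≠ 0 ∧ da + (a2 + b2 + (db + b1)) + b3 ≠ 0 ∧
      a1 + b1 + (da + (a2 + b2 + (db + b1)) + b3) ≠ 0 ∧
      (du + a1 + a2) + b3 + (dc + b2) ≠ 0 := by decide

/-- a root without a demand, or two opposite roots with the same demand -/
theorem solH : ∀ da db dc : K, (da = 0 ∨ db = dc) → ∃ a b y : K, a ≠ 0 ∧ b ≠ 0 ∧ y ≠ 0 ∧
    a + b ≠ 0 ∧ da + a ≠ 0 ∧ db + b ≠ 0 ∧ dc + y ≠ 0 ∧ a + b + y ≠ 0 ∧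
    (da + a) + (dc + y) ≠ 0 ∧ (da + a) + (dc + y) + (db + b) ≠ 0 := by
  decide

end Pool.Agent.TH499.TF
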